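import Mathlib

/-!
# SF-6: the Dirichlet kernel is large near `0`
-/

open Finset

namespace Pool.Agent.Helper94.SF

theorem kernel_large (R N M : ℕ) (h : 8 * N * R ≤ M) (hM : 0 < M) (n : ℕ) (hn : n ≤ N) :
    (R : ℝ) ^ 2 / 2 ≤ ‖∑ s ∈ Finset.range R,
      Complex.exp (2 * Real.pi * Complex.I * ((s * n : ℕ) : ℂ) / (M : ℂ))‖ ^ 2 := by
  have hM' : (0 : ℝ) < M := by exact_mod_cast hM
  have hre : ∀ s ∈ Finset.range R, Real.sqrt 2 / 2 ≤
      (Complex.exp (2 * Real.pi * Complex.I * ((s * n : ℕ) : ℂ) / (M : ℂ))).re := by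
    intro s hs
    have hsR : s < R := Finset.mem_range.1 hs
    have h1 : 8 * (s * n) ≤ M := by
      calc 8 * (s * n) ≤ 8 * (R * N) := by gcongr
        _ = 8 * N * R := by ring
        _ ≤ M := h
    have h1' : 8 * ((s * n : ℕ) : ℝ) ≤ M := by exact_mod_cast h1
    have e : (2 * Real.pi * Complex.I * ((s * n : ℕ) : ℂ) / (M : ℂ)) =
        ((2 * Real.pi * ((s * n : ℕ) : ℝ) / M : ℝ) : ℂ) * Complex.I := by
      push_cast
      ring
    rw [e, Complex.exp_ofReal_mul_I_re, ← Real.cos_pi_div_four]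
    have h0 : 0 ≤ 2 * Real.pi * ((s * n : ℕ) : ℝ) / M := by
      have := Real.pi_pos
      positivity
    have h2 : 2 * Real.pi * ((s * n : ℕ) : ℝ) / M ≤ Real.pi / 4 := by
      rw [div_le_iff₀ hM']
      nlinarith [Real.pi_pos]
    exact Real.cos_le_cos_of_nonneg_of_le_pi h0 (by linarith [Real.pi_pos]) h2
  have hsum : (R : ℝ) * (Real.sqrt 2 / 2) ≤ ‖∑ s ∈ Finset.range R,
      Complex.exp (2 * Real.pi * Complex.I * ((s * n : ℕ) : ℂ) / (M : ℂ))‖ := by
    refine le_trans ?_ (Complex.re_le_norm _)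
    rw [Complex.re_sum]
    calc (R : ℝ) * (Real.sqrt 2 / 2) = ∑ _s ∈ Finset.range R, Real.sqrt 2 / 2 := by
          rw [Finset.sum_const, Finset.card_range, nsmul_eq_mul]
      _ ≤ _ := Finset.sum_le_sum hre
  have hnn : 0 ≤ (R : ℝ) * (Real.sqrt 2 / 2) := by positivity
  calc (R : ℝ) ^ 2 / 2 = ((R : ℝ) * (Real.sqrt 2 / 2)) ^ 2 := by
        rw [mul_pow, div_pow, Real.sq_sqrt (by norm_num)]
        ring
    _ ≤ _ := pow_le_pow_left₀ hnn hsum 2

end Pool.Agent.Helper94.SF
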